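import Pool.Agent.W78.GM.Defs2

/-!
Project GM (helper78), task GP-3: local residue classes (`S_LOC`).
-/

set_option autoImplicit false

namespace Pool.Agent.W358.GM

open Finset Pool.Agent.W78.GM

/-- the primes `≤ z` that are `1 mod 4` -/
def Pz (z : ℕ) : Finset ℕ := (range (z + 1)).filter (fun l => l.Prime ∧ l % 4 = 1)

/-- the quadratic form -/
def FF (A B n : ℤ) (q : ℤ) : ℤ := A + 2 * n * q + q ^ 2 * B

open scoped Classical in
/-- a good class modulo `l` -/
noncomputable def rr (z : ℕ) (A B n : ℤ) (l : ℕ) : ℕ :=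
  if l ∈ Pz z then
    if (l : ℤ) ∣ FF A B n 1 then if (l : ℤ) ∣ FF A B n 2 then 3 else 2 else 1
  else 1

theorem rr_good {z : ℕ} {A B n : ℤ} (h : A * B = n ^ 2 + 1) {l : ℕ} (hl : l ∈ Pz z) :
    ¬ (l : ℤ) ∣ FF A B n (rr z A B n l) := by
  have hl' := hl
  simp only [Pz, mem_filter] at hl'
  obtain ⟨-, hp, h4⟩ := hl'
  have hpi : Prime (l : ℤ) := Nat.prime_iff_prime_int.mp hp
  have h2 : ¬ (l : ℤ) ∣ 2 := by
    intro hd
    have : l ∣ 2 := by exact_mod_cast hd
    have := Nat.le_of_dvd (by norm_num) this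
    have := hp.two_le
    omega
  unfold rr
  rw [if_pos hl]
  by_cases g1 : (l : ℤ) ∣ FF A B n 1
  swap
  · rw [if_neg g1]
    exact_mod_cast g1
  by_cases g2 : (l : ℤ) ∣ FF A B n 2
  swap
  · rw [if_pos g1, if_neg g2]
    exact_mod_cast g2
  · rw [if_pos g1, if_pos g2]
    intro g3
    have g3' : (l : ℤ) ∣ FF A B n 3 := by exact_mod_cast g3
    have e1 : FF A B n 1 - 2 * FF A B n 2 + FF A B n 3 = 2 * B := by unfold FF; ring
    have e2 : FF A B n 2 - FF A B n 1 = 2 * n + 3 * B := by unfold FF; ring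
    have d1 : (l : ℤ) ∣ 2 * B := by
      rw [← e1]
      exact dvd_add (dvd_sub g1 (Dvd.dvd.mul_left g2 2)) g3'
    have d2 : (l : ℤ) ∣ B := (hpi.dvd_or_dvd d1).resolve_left h2
    have d3 : (l : ℤ) ∣ 2 * n + 3 * B := by
      rw [← e2]
      exact dvd_sub g2 g1
    have d4 : (l : ℤ) ∣ 2 * n := (dvd_add_left (Dvd.dvd.mul_left d2 3)).mp d3
    have d5 : (l : ℤ) ∣ n := (hpi.dvd_or_dvd d4).resolve_left h2
    have d6 : (l : ℤ) ∣ n ^ 2 + 1 := by
      rw [← h]
      exact Dvd.dvd.mul_left d2 A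
    have d7 : (l : ℤ) ∣ 1 := (dvd_add_right (d5.trans (dvd_pow_self n two_ne_zero))).mp d6
    exact hpi.not_isUnit (isUnit_of_dvd_one d7)

theorem rr_cases (z : ℕ) (A B n : ℤ) (l : ℕ) :
    rr z A B n l = 1 ∨ rr z A B n l = 2 ∨ rr z A B n l = 3 := by
  unfold rr
  split_ifs <;> simp

theorem FF_congr {l : ℤ} {A B n A' B' n' : ℤ} (hA : A ≡ A' [ZMOD l]) (hB : B ≡ B' [ZMOD l])
    (hn : n ≡ n' [ZMOD l]) (q : ℤ) : FF A B n q ≡ FF A' B' n' q [ZMOD l] := by
  unfold FF
  exact ((hA.add ((Int.ModEq.mul_left 2 hn).mul_right q))).add (hB.mul_left (q ^ 2))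

theorem FF_congr_q {l : ℤ} (A B n : ℤ) {q q' : ℤ} (hq : q ≡ q' [ZMOD l]) :
    FF A B n q ≡ FF A B n q' [ZMOD l] := by
  unfold FF
  exact ((Int.ModEq.refl A).add (hq.mul_left (2 * n))).add ((hq.pow 2).mul_right B)

theorem dvd_congr {l x y : ℤ} (h : x ≡ y [ZMOD l]) : l ∣ x ↔ l ∣ y := by
  have := h.dvd
  constructor
  · intro hx
    have h2 := dvd_add this hx
    rwa [sub_add_cancel] at h2
  · intro hy
    have h2 := dvd_sub hy this
    rwa [sub_sub_cancel] at h2

theorem dvd_mz {z l : ℕ} (hl : l ∈ Pz z) : l ∣ mz z := by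
  have : l ^ 2 ∣ mz z := Finset.dvd_prod_of_mem (fun l => l ^ 2) hl
  exact (dvd_pow_self l two_ne_zero).trans this

theorem rr_congr {z : ℕ} {A B n A' B' n' : ℤ} (hA : A ≡ A' [ZMOD mz z])
    (hB : B ≡ B' [ZMOD mz z]) (hn : n ≡ n' [ZMOD mz z]) : rr z A B n = rr z A' B' n' := by
  funext l
  unfold rr
  by_cases hl : l ∈ Pz z
  · have hd : (l : ℤ) ∣ (mz z : ℤ) := by exact_mod_cast dvd_mz hl
    have h := fun q => dvd_congr (FF_congr (hA.of_dvd hd) (hB.of_dvd hd) (hn.of_dvd hd) q)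
    rw [if_pos hl, if_pos hl]
    simp only [h]
  · rw [if_neg hl, if_neg hl]

/-- Chinese remainder theorem -/
theorem crt (z : ℕ) (r : ℕ → ℕ) : ∃ c : ℕ, c ≡ 1 [MOD 4] ∧ ∀ l ∈ Pz z, c ≡ r l [MOD l] := by
  have hP : ∀ l ∈ Pz z, l.Prime ∧ l % 4 = 1 := by
    intro l hl
    simp only [Pz, mem_filter] at hl
    exact hl.2
  have h4 : 4 ∉ Pz z := by
    intro h
    have := (hP 4 h).2
    omega
  let t : Finset ℕ := insert 4 (Pz z)
  have hs : ∀ i ∈ t, (id i : ℕ) ≠ 0 := by
    intro i hi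
    rw [mem_insert] at hi
    rcases hi with rfl | hi
    · norm_num
    · exact (hP i hi).1.ne_zero
  have hpp : Set.Pairwise (t : Set ℕ) (Function.onFun Nat.Coprime id) := by
    intro a ha b hb hab
    simp only [t, coe_insert, Set.mem_insert_iff, mem_coe] at ha hb
    have key : ∀ l ∈ Pz z, Nat.Coprime 4 l := by
      intro l hl
      have h1 := hP l hl
      have : Nat.Coprime 2 l := by
        rw [Nat.coprime_primes Nat.prime_two h1.1]
        rintro rfl
        omega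
      exact Nat.Coprime.pow_left 2 this
    rcases ha with rfl | ha <;> rcases hb with rfl | hb
    · exact absurd rfl hab
    · exact key b hb
    · exact (key a ha).symm
    · exact (Nat.coprime_primes (hP a ha).1 (hP b hb).1).mpr hab
  obtain ⟨k, hk⟩ := Nat.chineseRemainderOfFinset (fun l => if l = 4 then 1 else r l) id t hs hpp
  refine ⟨k, ?_, ?_⟩
  · have := hk 4 (mem_insert_self _ _)
    simpa using this
  · intro l hl
    have := hk l (mem_insert_of_mem hl)
    have hne : l ≠ 4 := by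
      rintro rfl
      exact h4 hl
    simpa [hne] using this

theorem loc : S_LOC := by
  intro z
  choose G hG using crt z
  have hP : ∀ l ∈ Pz z, l.Prime ∧ l % 4 = 1 := by
    intro l hl
    simp only [Pz, mem_filter] at hl
    exact hl.2
  refine ⟨fun A B n => G (rr z A B n), ?_, ?_, ?_⟩
  · intro A B n
    refine ⟨(hG (rr z A B n)).1, ?_⟩
    unfold mz
    rw [Nat.coprime_prod_right_iff]
    intro l hl
    have hl' : l ∈ Pz z := hl
    apply Nat.Coprime.pow_right
    have h1 := hP l hl'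
    rw [Nat.coprime_comm, Nat.Prime.coprime_iff_not_dvd h1.1]
    intro hd
    have h2 := (hG (rr z A B n)).2 l hl'
    have h3 : l ∣ rr z A B n l := (Nat.ModEq.dvd_iff h2 dvd_rfl).mp hd
    have h5 : 5 ≤ l := by
      have := h1.1.two_le
      omega
    rcases rr_cases z A B n l with h | h | h
    · rw [h] at h3
      have := Nat.le_of_dvd (by norm_num) h3
      omega
    · rw [h] at h3
      have := Nat.le_of_dvd (by norm_num) h3
      omega
    · rw [h] at h3
      have := Nat.le_of_dvd (by norm_num) h3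
      omega
  · intro A B n A' B' n' hA hB hn
    change G _ = G _
    rw [rr_congr hA hB hn]
  · intro A B n h q hq l hlp hl4 hlz
    have hl : l ∈ Pz z := by
      simp only [Pz, mem_filter, mem_range]
      exact ⟨by omega, hlp, hl4⟩
    rintro ⟨h1, -⟩
    have h2 := (hG (rr z A B n)).2 l hl
    have h3 : q ≡ G (rr z A B n) [MOD l] := hq.of_dvd ((dvd_mz hl).mul_left 4)
    have h4 : (q : ℤ) ≡ ((rr z A B n l : ℕ) : ℤ) [ZMOD l] :=
      Int.natCast_modEq_iff.mpr (h3.trans h2)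
    have h5 := (dvd_congr (FF_congr_q A B n h4)).mp h1
    exact rr_good h hl h5

end Pool.Agent.W358.GM
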